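import Mathlib
import Pool.Agent.helper68.AM.Spec

/-!
Project AM, module LM: `lin_main` of helper72 with the sawtooth sum kept.
-/

set_option autoImplicit false

namespace AM

open Pool.Agent.helper72.Sq Finset

theorem LM : LM_stmt := by
  intro l1 l2 R h1 h2 hR
  rw [LinSet_ncard l1 l2 R h1 h2 hR]
  unfold SS ps
  set n := ⌊R / l2⌋₊ with hn
  have hn1 : (n : ℝ) ≤ R / l2 := Nat.floor_le (by positivity)
  have hn2 : R / l2 < n + 1 := Nat.lt_floor_add_one _
  set f := R / l2 - n with hf
  have hf0 : 0 ≤ f := by linarith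
  have hf1 : f ≤ 1 := by linarith
  have hRf : R = l2 * (n + f) := by
    rw [hf]; field_simp; ring
  have hsum : ∑ q ∈ range (n + 1), (q : ℝ) = n * (n + 1) / 2 := by
    have := Finset.sum_range_id_mul_two (n + 1)
    have h3 : ((∑ i ∈ range (n + 1), i : ℕ) : ℝ) * 2 = (((n + 1) * (n + 1 - 1) : ℕ) : ℝ) := by
      exact_mod_cast this
    rw [Nat.add_sub_cancel] at h3
    push_cast at h3
    linarith
  have key : ∑ q ∈ range (n + 1), ((R / l1 - q * (l2 / l1)) - Int.fract (R / l1 - q * (l2 / l1))) =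
      (R ^ 2 / (2 * l1 * l2) + R / (2 * l1) - R / (2 * l2)) +
      (l2 / l1 * (f * (1 - f) / 2) - (1 - f) / 2) -
      ∑ q ∈ range (n + 1), (Int.fract (R / l1 - q * (l2 / l1)) - 1 / 2) := by
    rw [sum_sub_distrib, sum_sub_distrib, sum_sub_distrib, ← sum_mul, hsum]
    simp only [sum_const, card_range, nsmul_eq_mul]
    push_cast
    rw [hRf]
    field_simp
    ring
  rw [key]
  have hq : |l2 / l1 * (f * (1 - f) / 2) - (1 - f) / 2| ≤ l2 / l1 + 1 := by
    have hpos : 0 < l2 / l1 := by positivity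
    have hff : 0 ≤ f * (1 - f) := mul_nonneg hf0 (by linarith)
    have hff1 : f * (1 - f) ≤ 1 := by nlinarith
    rw [abs_le]
    constructor
    · nlinarith [mul_nonneg hpos.le hff]
    · nlinarith [mul_nonneg hpos.le (sub_nonneg.2 hff1)]
  refine le_trans (le_of_eq ?_) hq
  congr 1
  ring

end AM
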